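import Mathlib

set_option autoImplicit false

namespace Pool.Agent.Lib.MP_70593a_al

/-- Monotone selection on a countable poset: a strictly monotone map squeezed between two
monotone bounds and taking values in prescribed dense sets. -/
theorem exists_strictMono_sel {Q L : Type} [PartialOrder Q] [Countable Q] [LinearOrder L]
    (lo hi : Q → L) (hlo : Monotone lo) (hhi : Monotone hi) (hlt : ∀ x, lo x < hi x)
    (T : Q → L → Prop) (hT : ∀ x a b, a < b → ∃ c, a < c ∧ c < b ∧ T x c) :
    ∃ g : Q → L, StrictMono g ∧ ∀ x, lo x < g x ∧ g x < hi x ∧ T x (g x) := by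
  classical
  obtain ⟨e, he⟩ := exists_injective_nat Q
  let Good : ℕ → (Q → L) → Prop := fun n g =>
    (∀ x, e x < n → lo x < g x ∧ g x < hi x ∧ T x (g x)) ∧
    (∀ x y, e x < n → e y < n → x < y → g x < g y)
  have step : ∀ n g, Good n g → ∃ g', Good (n + 1) g' ∧ ∀ x, e x < n → g' x = g x := by
    intro n g hg
    by_cases hx : ∃ x0, e x0 = n
    · obtain ⟨x0, hx0⟩ := hx
      have hfin : {y | e y < n}.Finite := by
        have : {y | e y < n} = e ⁻¹' (Set.Iio n) := rfl
        rw [this]
        exact (Set.finite_Iio n).preimage he.injOn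
      let s : Set L := insert (lo x0) (g '' {y | e y < n ∧ y < x0})
      let t : Set L := insert (hi x0) (g '' {y | e y < n ∧ x0 < y})
      have hs : s.Finite := ((hfin.subset (fun y hy => hy.1)).image g).insert _
      have ht : t.Finite := ((hfin.subset (fun y hy => hy.1)).image g).insert _
      obtain ⟨a, has, ha⟩ := Set.exists_max_image s id hs ⟨_, Set.mem_insert _ _⟩
      obtain ⟨b, hbt, hb⟩ := Set.exists_min_image t id ht ⟨_, Set.mem_insert _ _⟩
      have hab : a < b := by
        rcases has with rfl | ⟨y, ⟨hy, hyx⟩, rfl⟩ <;> rcases hbt with rfl | ⟨z, ⟨hz, hxz⟩, rfl⟩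
        · exact hlt _
        · exact (hlo hxz.le).trans_lt (hg.1 z hz).1
        · exact (hg.1 y hy).2.1.trans_le (hhi hyx.le)
        · exact hg.2 y z hy hz (hyx.trans hxz)
      obtain ⟨c, hac, hcb, hc⟩ := hT x0 a b hab
      have hne : ∀ y, e y < n → y ≠ x0 := by
        rintro y hy rfl
        omega
      have hcase : ∀ y, e y < n + 1 → y = x0 ∨ e y < n := by
        intro y hy
        rcases Nat.lt_succ_iff_lt_or_eq.1 hy with h | h
        · exact Or.inr h
        · exact Or.inl (he (h.trans hx0.symm))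
      refine ⟨Function.update g x0 c, ⟨?_, ?_⟩, ?_⟩
      · intro y hy
        rcases hcase y hy with rfl | h
        · rw [Function.update_self]
          exact ⟨(ha _ (Set.mem_insert _ _)).trans_lt hac,
            hcb.trans_le (hb _ (Set.mem_insert _ _)), hc⟩
        · rw [Function.update_of_ne (hne y h)]
          exact hg.1 y h
      · intro y z hy hz hyz
        rcases hcase y hy with rfl | h <;> rcases hcase z hz with rfl | h'
        · exact absurd hyz (lt_irrefl _)
        · rw [Function.update_self, Function.update_of_ne (hne z h')]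
          exact hcb.trans_le (hb _ (Set.mem_insert_of_mem _ ⟨z, ⟨h', hyz⟩, rfl⟩))
        · rw [Function.update_self, Function.update_of_ne (hne y h)]
          exact (ha _ (Set.mem_insert_of_mem _ ⟨y, ⟨h, hyz⟩, rfl⟩)).trans_lt hac
        · rw [Function.update_of_ne (hne y h), Function.update_of_ne (hne z h')]
          exact hg.2 y z h h' hyz
      · intro y hy
        rw [Function.update_of_ne (hne y hy)]
    · have hcase : ∀ y, e y < n + 1 → e y < n := by
        intro y hy
        rcases Nat.lt_succ_iff_lt_or_eq.1 hy with h | h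
        · exact h
        · exact absurd ⟨y, h⟩ hx
      exact ⟨g, ⟨fun x hx => hg.1 x (hcase x hx),
        fun x y hx hy => hg.2 x y (hcase x hx) (hcase y hy)⟩, fun _ _ => rfl⟩
  choose nxt hnxt hagree using step
  let G : (n : ℕ) → {g : Q → L // Good n g} := fun n =>
    Nat.rec (motive := fun n => {g : Q → L // Good n g})
      ⟨lo, ⟨fun x hx => absurd hx (Nat.not_lt_zero _), fun x y hx => absurd hx (Nat.not_lt_zero _)⟩⟩
      (fun n p => ⟨nxt n p.1 p.2, hnxt n p.1 p.2⟩) n
  have hG : ∀ n x, e x < n → (G (n + 1)).1 x = (G n).1 x := fun n x hx =>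
    hagree n (G n).1 (G n).2 x hx
  have hstab : ∀ x m, e x + 1 ≤ m → (G m).1 x = (G (e x + 1)).1 x := by
    intro x m hm
    induction m, hm using Nat.le_induction with
    | base => rfl
    | succ m hm ih => rw [hG m x (by omega), ih]
  refine ⟨fun x => (G (e x + 1)).1 x, ?_, fun x => (G (e x + 1)).2.1 x (by omega)⟩
  intro x y hxy
  have h := (G (e x + e y + 1)).2.2 x y (by omega) (by omega) hxy
  rw [hstab x _ (by omega), hstab y _ (by omega)] at h
  exact h

/-- Majority vote of five Booleans. -/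
def maj (b : Fin 5 → Bool) : Bool :=
  decide (3 ≤ (b 0).toNat + (b 1).toNat + (b 2).toNat + (b 3).toNat + (b 4).toNat)

theorem maj_not (b : Fin 5 → Bool) : maj (fun j => !b j) = !maj b := by
  revert b
  decide

theorem maj_eq (b : Fin 5 → Bool) (e : Bool) (i i' : Fin 5)
    (h : ∀ j, j ≠ i → j ≠ i' → b j = e) : maj b = e := by
  revert b e i i'
  decide +kernel

section order

variable {L : Type} [LinearOrder L]

theorem erase_ne (i : Fin 5) : (Finset.univ.erase i).Nonempty := by
  revert i
  decide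

/-- The second smallest of five values. -/
def lo (x : Fin 5 → L) : L :=
  Finset.univ.sup' Finset.univ_nonempty fun i => (Finset.univ.erase i).inf' (erase_ne i) x

/-- The second largest of five values. -/
def hi (x : Fin 5 → L) : L :=
  Finset.univ.inf' Finset.univ_nonempty fun i => (Finset.univ.erase i).sup' (erase_ne i) x

theorem lo_spec (x : Fin 5 → L) : ∃ i, ∀ j, j ≠ i → lo x ≤ x j := by
  obtain ⟨i, -, hi⟩ := Finset.exists_mem_eq_sup' (Finset.univ_nonempty (α := Fin 5))
    fun i => (Finset.univ.erase i).inf' (erase_ne i) x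
  refine ⟨i, fun j hj => ?_⟩
  unfold lo
  rw [hi]
  exact Finset.inf'_le _ (by simp [hj])

theorem hi_spec (x : Fin 5 → L) : ∃ i, ∀ j, j ≠ i → x j ≤ hi x := by
  obtain ⟨i, -, hi'⟩ := Finset.exists_mem_eq_inf' (Finset.univ_nonempty (α := Fin 5))
    fun i => (Finset.univ.erase i).sup' (erase_ne i) x
  refine ⟨i, fun j hj => ?_⟩
  unfold hi
  rw [hi']
  exact Finset.le_sup' _ (by simp [hj])

theorem le_lo (x : Fin 5 → L) (v : L) (i : Fin 5) (h : ∀ j, j ≠ i → v ≤ x j) : v ≤ lo x := by
  unfold lo
  refine le_trans ?_ (Finset.le_sup' _ (Finset.mem_univ i))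
  exact Finset.le_inf' _ _ fun j hj => h j (Finset.ne_of_mem_erase hj)

theorem hi_le (x : Fin 5 → L) (v : L) (i : Fin 5) (h : ∀ j, j ≠ i → x j ≤ v) : hi x ≤ v := by
  unfold hi
  refine le_trans (Finset.inf'_le _ (Finset.mem_univ i)) ?_
  exact Finset.sup'_le _ _ fun j hj => h j (Finset.ne_of_mem_erase hj)

theorem lo_mono : Monotone (lo : (Fin 5 → L) → L) := by
  intro x y hxy
  obtain ⟨i, hi⟩ := lo_spec x
  exact le_lo y _ i fun j hj => (hi j hj).trans (hxy j)

theorem hi_mono : Monotone (hi : (Fin 5 → L) → L) := by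
  intro x y hxy
  obtain ⟨i, hi'⟩ := hi_spec y
  exact hi_le x _ i fun j hj => (hxy j).trans (hi' j hj)

theorem lo_le_hi (x : Fin 5 → L) : lo x ≤ hi x := by
  obtain ⟨i, hi1⟩ := lo_spec x
  obtain ⟨i', hi2⟩ := hi_spec x
  have : ∀ i i' : Fin 5, ∃ j, j ≠ i ∧ j ≠ i' := by decide
  obtain ⟨j, h1, h2⟩ := this i i'
  exact (hi1 j h1).trans (hi2 j h2)

/-- A monotone near-unanimity operation of arity five on a countable chain with a dense and
codense colouring, which acts on the colours as the majority vote. -/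
theorem exists_op [Countable L] (χ : L → Bool)
    (hd : ∀ (t : Bool) (a b : L), a < b → ∃ c, a < c ∧ c < b ∧ χ c = t) :
    ∃ g : (Fin 5 → L) → L, Monotone g ∧
      (∀ (x y : L) (i : Fin 5), g (Function.update (fun _ => x) i y) = x) ∧
      ∀ x, χ (g x) = maj fun j => χ (x j) := by
  classical
  obtain ⟨g0, hg0, hb⟩ := exists_strictMono_sel (Q := {x : Fin 5 → L // lo x < hi x})
    (fun x => lo x.1) (fun x => hi x.1) (fun _ _ h => lo_mono h) (fun _ _ h => hi_mono h)
    (fun x => x.2) (fun x c => χ c = maj fun j => χ (x.1 j)) (fun x a b h => hd _ a b h)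
  refine ⟨fun x => if h : lo x < hi x then g0 ⟨x, h⟩ else lo x, ?_, ?_, ?_⟩
  · intro x y hxy
    by_cases hx : lo x < hi x <;> by_cases hy : lo y < hi y <;> simp only [hx, hy, dif_pos,
      dif_neg, not_false_eq_true]
    · exact hg0.monotone (show (⟨x, hx⟩ : {x : Fin 5 → L // lo x < hi x}) ≤ ⟨y, hy⟩ from hxy)
    · exact ((hb ⟨x, hx⟩).2.1.le.trans (hi_mono hxy)).trans (not_lt.1 hy)
    · exact (lo_mono hxy).trans (hb ⟨y, hy⟩).1.le
    · exact lo_mono hxy
  · intro x y i
    have h1 : x ≤ lo (Function.update (fun _ => x) i y) :=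
      le_lo _ _ i fun j hj => by rw [Function.update_of_ne hj]
    have h2 : hi (Function.update (fun _ => x) i y) ≤ x :=
      hi_le _ _ i fun j hj => by rw [Function.update_of_ne hj]
    have h3 : ¬ lo (Function.update (fun _ => x) i y) < hi (Function.update (fun _ => x) i y) :=
      not_lt.2 (h2.trans h1)
    simp only [h3, dif_neg, not_false_eq_true]
    exact le_antisymm ((lo_le_hi _).trans h2) h1
  · intro x
    by_cases hx : lo x < hi x
    · simp only [hx, dif_pos]
      exact (hb ⟨x, hx⟩).2.2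
    · simp only [hx, dif_neg, not_false_eq_true]
      obtain ⟨i, hi1⟩ := lo_spec x
      obtain ⟨i', hi2⟩ := hi_spec x
      refine (maj_eq _ _ i i' fun j h1 h2 => ?_).symm
      have : x j = lo x := le_antisymm ((hi2 j h2).trans (not_lt.1 hx)) (hi1 j h1)
      rw [this]

end order

/-- The chain: rationals together with the rationals shifted by the square root of two. -/
def D : Set ℝ := Set.range (fun q : ℚ => (q : ℝ)) ∪ Set.range (fun q : ℚ => (q : ℝ) + √2)

theorem D_countable : D.Countable := (Set.countable_range _).union (Set.countable_range _)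

open Classical in
/-- The colouring of the chain by irrationality. -/
noncomputable def col (x : D) : Bool := decide (Irrational x.1)

theorem col_dense (t : Bool) (a b : D) (h : a < b) : ∃ c, a < c ∧ c < b ∧ col c = t := by
  have h' : a.1 < b.1 := h
  cases t
  · obtain ⟨q, h1, h2⟩ := exists_rat_btwn h'
    refine ⟨⟨q, Or.inl ⟨q, rfl⟩⟩, h1, h2, ?_⟩
    simp [col]
  · obtain ⟨q, h1, h2⟩ := exists_rat_btwn (sub_lt_sub_right h' (√2))
    refine ⟨⟨q + √2, Or.inr ⟨q, rfl⟩⟩, ?_, ?_, ?_⟩
    · show a.1 < q + √2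
      linarith
    · show (q : ℝ) + √2 < b.1
      linarith
    · simp only [col, decide_eq_true_eq]
      exact irrational_sqrt_two.ratCast_add q

theorem D_lt : ∃ u v : D, u < v :=
  ⟨⟨(0 : ℚ), Or.inl ⟨0, rfl⟩⟩, ⟨(1 : ℚ), Or.inl ⟨1, rfl⟩⟩, by
    show ((0 : ℚ) : ℝ) < ((1 : ℚ) : ℝ)
    simp⟩

end Pool.Agent.Lib.MP_70593a_al
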