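import Pool.Agent.Lib.MP_70593a_al.Basic

set_option autoImplicit false

namespace Pool.Agent.Lib.MP_70593a_al

/-- The counterexample on a countably infinite carrier, with the four vertices of the finite
digraph given by an injective map from `Fin 4`. -/
theorem exists_counter : ∃ (A : Type) (_ : Countable A) (_ : Infinite A) (R : A → A → Prop)
    (φ : Fin 4 → A), Function.Injective φ ∧
    R (φ 0) (φ 1) ∧ R (φ 1) (φ 0) ∧ R (φ 2) (φ 3) ∧ R (φ 3) (φ 2) ∧ R (φ 0) (φ 2) ∧
    R (φ 0) (φ 3) ∧ (∀ a, (∃ b, R b a) ∧ ∃ b, R a b) ∧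
    (∃ f : (Fin 5 → A) → A,
      (∀ (x y : A) (i : Fin 5), f (Function.update (fun _ => x) i y) = x) ∧
      ∀ a b : Fin 5 → A, (∀ i, R (a i) (b i)) → R (f a) (f b)) ∧
    ∀ a, ¬ R a a := by
  classical
  have : Countable D := D_countable.to_subtype
  obtain ⟨g, hmono, hnu, hcol⟩ := exists_op col col_dense
  obtain ⟨u, w, huw⟩ := D_lt
  obtain ⟨b, hub, hbw, hb⟩ := col_dense false u w huw
  obtain ⟨a, -, hab, ha⟩ := col_dense true u b hub
  obtain ⟨d, hbd, -, hd⟩ := col_dense true b w hbw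
  let A : Type := {p : D × D // col p.1 = !col p.2}
  let R : A → A → Prop := fun z t => z.1.1 ≤ t.1.2 ∧ z.1.2 ≤ t.1.1
  let x : A := ⟨(a, b), by simp [ha, hb]⟩
  let x' : A := ⟨(b, a), by simp [ha, hb]⟩
  let y : A := ⟨(b, d), by simp [hd, hb]⟩
  let y' : A := ⟨(d, b), by simp [hd, hb]⟩
  let f : (Fin 5 → A) → A := fun z =>
    ⟨(g fun i => (z i).1.1, g fun i => (z i).1.2), by
      show col (g _) = !col (g _)
      rw [hcol, hcol, ← maj_not]
      congr 1
      funext j
      exact (z j).2⟩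
  have hinf : Infinite A := by
    have hq : ∀ n : ℕ, col ⟨((n : ℚ) : ℝ), Or.inl ⟨n, rfl⟩⟩ = false := by
      intro n
      simp [col]
    refine Infinite.of_injective
      (fun n : ℕ => (⟨(⟨((n : ℚ) : ℝ), Or.inl ⟨n, rfl⟩⟩, a), by simp only [hq n, ha]; rfl⟩ : A)) ?_
    intro m n hmn
    have h1 := congrArg (fun z : A => z.1.1.1) hmn
    simpa using h1
  have had : a < d := hab.trans hbd
  refine ⟨A, inferInstance, hinf, R, ![x, x', y, y'], ?_, ⟨le_rfl, le_rfl⟩, ⟨le_rfl, le_rfl⟩,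
    ⟨le_rfl, le_rfl⟩, ⟨le_rfl, le_rfl⟩, ⟨had.le, le_rfl⟩, ⟨hab.le, hbd.le⟩, ?_, ⟨f, ?_, ?_⟩, ?_⟩
  · have hinj : Function.Injective (![(a, b), (b, a), (b, d), (d, b)] : Fin 4 → D × D) := by
      have n1 := hab.ne
      have n2 := hbd.ne
      have n3 := had.ne
      have n4 := hab.ne'
      have n5 := hbd.ne'
      have n6 := had.ne'
      intro i j hij
      fin_cases i <;> fin_cases j <;> first | rfl | (exfalso; simp [n1, n2, n3, n4, n5, n6] at hij)
    have hval : ∀ i : Fin 4, ((![x, x', y, y'] : Fin 4 → A) i).1 =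
        (![(a, b), (b, a), (b, d), (d, b)] : Fin 4 → D × D) i := by
      intro i
      fin_cases i <;> rfl
    intro i j hij
    apply hinj
    rw [← hval, ← hval, hij]
  · intro z
    have hz : col z.1.2 = !col z.1.1 := by
      rw [z.2]
      simp
    exact ⟨⟨⟨(z.1.2, z.1.1), hz⟩, le_rfl, le_rfl⟩, ⟨⟨(z.1.2, z.1.1), hz⟩, le_rfl, le_rfl⟩⟩
  · intro p q i
    apply Subtype.ext
    apply Prod.ext
    · show g _ = _
      rw [← hnu p.1.1 q.1.1 i]
      congr 1
      funext j
      by_cases hj : j = i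
      · subst hj
        simp
      · simp [Function.update_of_ne hj]
    · show g _ = _
      rw [← hnu p.1.2 q.1.2 i]
      congr 1
      funext j
      by_cases hj : j = i
      · subst hj
        simp
      · simp [Function.update_of_ne hj]
  · intro p q h
    exact ⟨hmono fun i => (h i).1, hmono fun i => (h i).2⟩
  · rintro z ⟨hz1, hz2⟩
    have h := z.2
    rw [le_antisymm hz1 hz2] at h
    revert h
    cases col z.1.2 <;> simp

/-- A near-unanimity polymorphism of arity five gives one of every arity at least five. -/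
theorem nu_lift {A : Type} (R : A → A → Prop) (f : (Fin 5 → A) → A)
    (hnu : ∀ (x y : A) (i : Fin 5), f (Function.update (fun _ => x) i y) = x)
    (hc : ∀ a b : Fin 5 → A, (∀ i, R (a i) (b i)) → R (f a) (f b)) (n : ℕ) (hn : 5 ≤ n) :
    ∃ f : (Fin n → A) → A,
      (∀ (x y : A) (i : Fin n), f (fun j => if j = i then y else x) = x) ∧
      ∀ a b : Fin n → A, (∀ i, R (a i) (b i)) → R (f a) (f b) := by
  classical
  refine ⟨fun a => f fun j => a (Fin.castLE hn j), ?_, fun a b h => hc _ _ fun j => h _⟩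
  intro x y i
  by_cases hi : i.1 < 5
  · refine Eq.trans ?_ (hnu x y ⟨i.1, hi⟩)
    show f _ = f _
    congr 1
    funext j
    by_cases hj : j = ⟨i.1, hi⟩
    · subst hj
      simp
    · rw [Function.update_of_ne hj]
      show (if _ then y else x) = x
      rw [if_neg]
      intro h
      apply hj
      ext
      simpa using congrArg Fin.val h
  · refine Eq.trans ?_ (hnu x x 0)
    show f _ = f _
    congr 1
    funext j
    show (if _ then y else x) = _
    rw [if_neg]
    · by_cases hj : j = 0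
      · subst hj
        simp
      · rw [Function.update_of_ne hj]
    · intro h
      apply hi
      rw [← h]
      simp

/-- The counterexample transported to the natural numbers. -/
theorem exists_counter_nat : ∃ R : ℕ → ℕ → Prop,
    R 0 1 ∧ R 1 0 ∧ R 2 3 ∧ R 3 2 ∧ R 0 2 ∧ R 0 3 ∧ (∀ a, (∃ b, R b a) ∧ ∃ b, R a b) ∧
    (∃ f : (Fin 5 → ℕ) → ℕ,
      (∀ (x y : ℕ) (i : Fin 5), f (Function.update (fun _ => x) i y) = x) ∧
      ∀ a b : Fin 5 → ℕ, (∀ i, R (a i) (b i)) → R (f a) (f b)) ∧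
    ∀ a, ¬ R a a := by
  obtain ⟨A, hc, hi, R, φ, hφ, h1, h2, h3, h4, h5, h6, hs, ⟨f, hnu, hf⟩, hl⟩ := exists_counter
  obtain ⟨e0⟩ : Nonempty (A ≃ ℕ) := nonempty_equiv_of_countable
  obtain ⟨σ, hσ⟩ := Equiv.Perm.exists_extending_pair (f := fun i : Fin 4 => e0 (φ i))
    (g := fun i : Fin 4 => (i : ℕ)) (e0.injective.comp hφ) Fin.val_injective
  let e : A ≃ ℕ := e0.trans σ
  have he : ∀ i : Fin 4, e.symm (i : ℕ) = φ i := by
    intro i
    rw [Equiv.symm_apply_eq]
    exact (hσ i).symm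
  have e0' : e.symm 0 = φ 0 := he 0
  have e1' : e.symm 1 = φ 1 := he 1
  have e2' : e.symm 2 = φ 2 := he 2
  have e3' : e.symm 3 = φ 3 := he 3
  refine ⟨fun m n => R (e.symm m) (e.symm n), ?_, ?_, ?_, ?_, ?_, ?_, ?_,
    ⟨fun a => e (f fun i => e.symm (a i)), ?_, ?_⟩, fun a => hl _⟩
  · simpa only [e0', e1'] using h1
  · simpa only [e0', e1'] using h2
  · simpa only [e2', e3'] using h3
  · simpa only [e2', e3'] using h4
  · simpa only [e0', e2'] using h5
  · simpa only [e0', e3'] using h6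
  · intro a
    obtain ⟨⟨b, hb⟩, ⟨c, hc⟩⟩ := hs (e.symm a)
    exact ⟨⟨e b, by simpa using hb⟩, ⟨e c, by simpa using hc⟩⟩
  · intro x y i
    rw [← Equiv.eq_symm_apply, ← hnu (e.symm x) (e.symm y) i]
    congr 1
    funext j
    by_cases hj : j = i
    · subst hj
      simp
    · simp [Function.update_of_ne hj]
  · intro a b h
    simpa using hf _ _ h

end Pool.Agent.Lib.MP_70593a_al
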