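import Pool.Agent.Lib.MP_70593a_al.Basic

/-! A loopless relation with a near-unanimity operation of arity four. -/

set_option autoImplicit false

namespace Pool.Agent.Lib.MP_70593a_al

theorem greedy {Q L : Type} (r : Q → ℕ) (Good : ℕ → (Q → L) → Prop) (g0 : Q → L) (h0 : Good 0 g0)
    (step : ∀ n g, Good n g → ∃ g', Good (n + 1) g' ∧ ∀ x, r x < n → g' x = g x) :
    ∃ g : Q → L, ∀ n, ∃ g', Good n g' ∧ ∀ x, r x < n → g x = g' x := by
  choose nxt hnxt hagree using step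
  let G : (n : ℕ) → {g : Q → L // Good n g} := fun n =>
    Nat.rec (motive := fun n => {g : Q → L // Good n g}) ⟨g0, h0⟩
      (fun n p => ⟨nxt n p.1 p.2, hnxt n p.1 p.2⟩) n
  have hG : ∀ n x, r x < n → (G (n + 1)).1 x = (G n).1 x := fun n x hx =>
    hagree n (G n).1 (G n).2 x hx
  have hstab : ∀ x m, r x + 1 ≤ m → (G m).1 x = (G (r x + 1)).1 x := by
    intro x m hm
    induction m, hm using Nat.le_induction with
    | base => rfl
    | succ m hm ih => rw [hG m x (by omega), ih]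
  exact ⟨fun x => (G (r x + 1)).1 x, fun n => ⟨(G n).1, (G n).2, fun x hx => (hstab x n hx).symm⟩⟩

/-- Monotone selection along the orbits of an involution. -/
theorem sel2 {Q L : Type} [Countable Q] [LinearOrder L] (lt : Q → Q → Prop)
    (htr : ∀ x y z, lt x y → lt y z → lt x z) (hir : ∀ x, ¬ lt x x) (s : Q → Q)
    (hs : ∀ x, s (s x) = x) (hne : ∀ x, s x ≠ x) (hsx : ∀ x, ¬ lt x (s x))
    (lo hi : Q → L) (hlo : ∀ x y, lt x y → lo x ≤ lo y) (hhi : ∀ x y, lt x y → hi x ≤ hi y)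
    (hlt : ∀ x, lo x < hi x) (T : Q → L → L → Prop) (hT' : ∀ x c d, T x c d → T (s x) d c)
    (hT : ∀ x a b a' b', lo x ≤ a → a < b → b ≤ hi x → lo (s x) ≤ a' → a' < b' → b' ≤ hi (s x) →
      ∃ c d, a < c ∧ c < b ∧ a' < d ∧ d < b' ∧ T x c d) :
    ∃ g : Q → L, (∀ x y, lt x y → g x < g y) ∧
      ∀ x, lo x < g x ∧ g x < hi x ∧ T x (g x) (g (s x)) := by
  classical
  obtain ⟨e, he⟩ := exists_injective_nat Q
  have hsi : Function.Injective s := Function.Involutive.injective hs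
  obtain ⟨r, hr⟩ : ∃ r : Q → ℕ, ∀ x, r x = min (e x) (e (s x)) := ⟨_, fun _ => rfl⟩
  have hrs : ∀ x, r (s x) = r x := fun x => by rw [hr, hr, hs, min_comm]
  have hfib : ∀ x y, r x = r y → x = y ∨ x = s y := by
    intro x y h
    rw [hr, hr] at h
    have : e x = e y ∨ e x = e (s y) ∨ e (s x) = e y ∨ e (s x) = e (s y) := by omega
    rcases this with h | h | h | h
    · exact Or.inl (he h)
    · exact Or.inr (he h)
    · exact Or.inr (by rw [← he h, hs])
    · exact Or.inl (hsi (he h))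
  obtain ⟨g, hg⟩ := greedy r (fun n g =>
      (∀ x, r x < n → lo x < g x ∧ g x < hi x ∧ T x (g x) (g (s x))) ∧
      (∀ x y, r x < n → r y < n → lt x y → g x < g y)) lo (by simp) (by
    intro n g hg
    by_cases hx : ∃ x0, r x0 = n
    swap
    · have hcase : ∀ y, r y < n + 1 → r y < n := fun y hy =>
        lt_of_le_of_ne (Nat.lt_succ_iff.1 hy) fun h => hx ⟨y, h⟩
      exact ⟨g, ⟨fun x hx => hg.1 x (hcase x hx),
        fun x y hx hy => hg.2 x y (hcase x hx) (hcase y hy)⟩, fun _ _ => rfl⟩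
    obtain ⟨x0, hx0⟩ := hx
    have hfin : {y | r y < n}.Finite := by
      refine (((Set.finite_Iio n).preimage he.injOn).union
        ((Set.finite_Iio n).preimage (he.comp hsi).injOn)).subset fun y hy => ?_
      have hy' : r y < n := hy
      rw [hr] at hy'
      exact min_lt_iff.1 hy'
    have bd : ∀ z, ∃ a b, lo z ≤ a ∧ a < b ∧ b ≤ hi z ∧ (∀ y, r y < n → lt y z → g y ≤ a) ∧
        ∀ y, r y < n → lt z y → b ≤ g y := by
      intro z
      obtain ⟨a, has, ha⟩ := Set.exists_max_image (insert (lo z) (g '' {y | r y < n ∧ lt y z})) id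
        (((hfin.subset (fun y hy => hy.1)).image g).insert _) ⟨_, Set.mem_insert _ _⟩
      obtain ⟨b, hbt, hb⟩ := Set.exists_min_image (insert (hi z) (g '' {y | r y < n ∧ lt z y})) id
        (((hfin.subset (fun y hy => hy.1)).image g).insert _) ⟨_, Set.mem_insert _ _⟩
      refine ⟨a, b, ha _ (Set.mem_insert _ _), ?_, hb _ (Set.mem_insert _ _),
        fun y h1 h2 => ha _ (Set.mem_insert_of_mem _ ⟨y, ⟨h1, h2⟩, rfl⟩),
        fun y h1 h2 => hb _ (Set.mem_insert_of_mem _ ⟨y, ⟨h1, h2⟩, rfl⟩)⟩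
      rcases has with rfl | ⟨y, ⟨hy, hyx⟩, rfl⟩ <;> rcases hbt with rfl | ⟨w, ⟨hw, hxw⟩, rfl⟩
      · exact hlt _
      · exact (hlo _ _ hxw).trans_lt (hg.1 w hw).1
      · exact (hg.1 y hy).2.1.trans_le (hhi _ _ hyx)
      · exact hg.2 y w hy hw (htr _ _ _ hyx hxw)
    obtain ⟨a, b, a1, a2, a3, a4, a5⟩ := bd x0
    obtain ⟨a', b', b1, b2, b3, b4, b5⟩ := bd (s x0)
    obtain ⟨c, d, c1, c2, d1, d2, hcd⟩ := hT x0 a b a' b' a1 a2 a3 b1 b2 b3
    obtain ⟨g', e1, e2, e3⟩ : ∃ g' : Q → L, g' x0 = c ∧ g' (s x0) = d ∧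
        ∀ y, r y < n → g' y = g y := by
      refine ⟨fun y => if y = x0 then c else if y = s x0 then d else g y, by simp,
        by simp [hne x0], fun y hy => ?_⟩
      have n1 : y ≠ x0 := by
        rintro rfl
        omega
      have n2 : y ≠ s x0 := by
        rintro rfl
        rw [hrs] at hy
        omega
      simp [n1, n2]
    have hcase : ∀ y, r y < n + 1 → y = x0 ∨ y = s x0 ∨ r y < n := by
      intro y hy
      rcases Nat.lt_succ_iff_lt_or_eq.1 hy with h | h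
      · exact Or.inr (Or.inr h)
      · exact (hfib y x0 (h.trans hx0.symm)).imp_right Or.inl
    refine ⟨g', ⟨fun y hy => ?_, fun y z hy hz hyz => ?_⟩, e3⟩
    · rcases hcase y hy with rfl | rfl | h
      · rw [e1, e2]
        exact ⟨a1.trans_lt c1, c2.trans_le a3, hcd⟩
      · rw [hs, e1, e2]
        exact ⟨b1.trans_lt d1, d2.trans_le b3, hT' _ _ _ hcd⟩
      · rw [e3 y h, e3 (s y) (by rwa [hrs])]
        exact hg.1 y h
    · rcases hcase y hy with rfl | rfl | h <;> rcases hcase z hz with rfl | rfl | h'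
      · exact absurd hyz (hir _)
      · exact absurd hyz (hsx _)
      · rw [e1, e3 z h']
        exact c2.trans_le (a5 z h' hyz)
      · exact absurd (by rwa [hs]) (hsx (s z))
      · exact absurd hyz (hir _)
      · rw [e2, e3 z h']
        exact d2.trans_le (b5 z h' hyz)
      · rw [e1, e3 y h]
        exact (a4 y h hyz).trans_lt c1
      · rw [e2, e3 y h]
        exact (b4 y h hyz).trans_lt d1
      · rw [e3 y h, e3 z h']
        exact hg.2 y z h h' hyz)
  refine ⟨g, fun x y hxy => ?_, fun x => ?_⟩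
  · obtain ⟨g', h1, h2⟩ := hg (r x + r y + 1)
    rw [h2 x (by omega), h2 y (by omega)]
    exact h1.2 x y (by omega) (by omega) hxy
  · obtain ⟨g', h1, h2⟩ := hg (r x + 1)
    rw [h2 x (by omega), h2 (s x) (by rw [hrs]; omega)]
    exact h1.1 x (by omega)

/-- The monotone Boolean function behind the two bounds. -/
def Φ (a b : Fin 4 → Prop) : Prop :=
  (∃ m, ∀ i, i ≠ m → a i) ∨ ∃ m l, m ≠ l ∧ b l ∧ ∀ i, i ≠ m → i ≠ l → a i ∧ b i

instance (a b : Fin 4 → Prop) [DecidablePred a] [DecidablePred b] : Decidable (Φ a b) := by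
  unfold Φ
  infer_instance

theorem Φ.mono {a b a' b' : Fin 4 → Prop} (h : Φ a b) (ha : ∀ i, a i → a' i)
    (hb : ∀ i, b i → b' i) : Φ a' b' := by
  rcases h with ⟨m, h⟩ | ⟨m, l, h1, h2, h3⟩
  · exact Or.inl ⟨m, fun i hi => ha i (h i hi)⟩
  · exact Or.inr ⟨m, l, h1, hb l h2, fun i hi hj => ⟨ha i (h3 i hi hj).1, hb i (h3 i hi hj).2⟩⟩

theorem Φ.not {a b : Fin 4 → Prop} (h : Φ a b) : ¬ Φ (fun i => ¬ a i) (fun i => ¬ b i) := by
  classical
  have key : ∀ a b : Fin 4 → Bool, Φ (fun i => a i = true) (fun i => b i = true) →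
      ¬ Φ (fun i => ¬ a i = true) (fun i => ¬ b i = true) := by
    decide +kernel
  have := key (fun i => decide (a i)) (fun i => decide (b i))
  simp only [decide_eq_true_eq] at this
  exact this h

/-- The sign patterns of a pair with respect to a white threshold. -/
def ok (t : Bool × Bool × Bool × Bool) : Bool :=
  (t.1 || t.2.1) && (t.2.2.1 || t.2.2.2) && !(t.1 && t.2.1 && t.2.2.2) &&
    !(t.2.2.1 && t.2.2.2 && t.2.1)

/-- The implication to be checked for each sign pattern. -/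
def Kc (t : Fin 4 → Bool × Bool × Bool × Bool) : Prop :=
  Φ (fun i => (t i).1 = true) (fun i => (t i).2.2.1 = true) →
    Φ (fun i => (t i).2.1 = true) (fun i => (t i).2.2.2 = true) →
    Φ (fun i => (t i).2.2.1 = true) (fun i => (t i).1 = true) ∧
    ¬ Φ (fun i => (t i).2.2.2 = true) (fun i => (t i).2.1 = true)

instance (t : Fin 4 → Bool × Bool × Bool × Bool) : Decidable (Kc t) := by
  unfold Kc
  infer_instance

theorem keyB : ∀ t0, ok t0 = true → ∀ t1, ok t1 = true → ∀ t2, ok t2 = true → ∀ t3, ok t3 = true →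
    Kc ![t0, t1, t2, t3] := by
  decide +kernel

theorem Φ.key {a b a' b' : Fin 4 → Prop} (h : Φ a b) (h' : Φ a' b') (h1 : ∀ i, a i ∨ a' i)
    (h2 : ∀ i, b i ∨ b' i) (h3 : ∀ i, a i → a' i → ¬ b' i) (h4 : ∀ i, b i → b' i → ¬ a' i) :
    Φ b a ∧ ¬ Φ b' a' := by
  classical
  let t : Fin 4 → Bool × Bool × Bool × Bool := fun i =>
    (decide (a i), decide (a' i), decide (b i), decide (b' i))
  have ht : ∀ i, ok (t i) = true := by
    intro i
    have := h1 i
    have := h2 i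
    have := h3 i
    have := h4 i
    by_cases a i <;> by_cases a' i <;> by_cases b i <;> by_cases b' i <;> simp_all [ok, t]
  have e : ![t 0, t 1, t 2, t 3] = t := by
    funext i
    fin_cases i <;> rfl
  have := keyB _ (ht 0) _ (ht 1) _ (ht 2) _ (ht 3)
  simp only [e, Kc, t, decide_eq_true_eq] at this
  exact this h h'

theorem exists_thr {L : Type} [LinearOrder L] (p q : Fin 4 → L) :
    ∃ l, ∀ v, v ≤ l ↔ Φ (fun i => v ≤ p i) (fun i => v ≤ q i) := by
  have hfin : (Set.range p ∪ Set.range q).Finite := (Set.finite_range p).union (Set.finite_range q)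
  have up : ∀ v, Φ (fun i => v ≤ p i) (fun i => v ≤ q i) →
      ∃ w ∈ Set.range p ∪ Set.range q, v ≤ w ∧ Φ (fun i => w ≤ p i) (fun i => w ≤ q i) := by
    intro v hv
    obtain ⟨w, hw, hm⟩ := Set.exists_min_image {w ∈ Set.range p ∪ Set.range q | v ≤ w} id
      (hfin.subset fun _ h => h.1) (by
        rcases hv with ⟨m, h⟩ | ⟨m, l, -, h, -⟩
        · obtain ⟨i, hi⟩ := exists_ne m
          exact ⟨p i, Or.inl ⟨i, rfl⟩, h i hi⟩
        · exact ⟨q l, Or.inr ⟨l, rfl⟩, h⟩)
    exact ⟨w, hw.1, hw.2, hv.mono (fun i hi => hm _ ⟨Or.inl ⟨i, rfl⟩, hi⟩)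
      fun i hi => hm _ ⟨Or.inr ⟨i, rfl⟩, hi⟩⟩
  obtain ⟨l, hl, hm⟩ := Set.exists_max_image
    {w ∈ Set.range p ∪ Set.range q | Φ (fun i => w ≤ p i) (fun i => w ≤ q i)} id
    (hfin.subset fun _ h => h.1) (by
      obtain ⟨i, hi⟩ := Finite.exists_min p
      exact ⟨p i, Or.inl ⟨i, rfl⟩, Or.inl ⟨0, fun j _ => hi j⟩⟩)
  refine ⟨l, fun v => ⟨fun hv => hl.2.mono (fun i => hv.trans) (fun i => hv.trans), fun hv => ?_⟩⟩
  obtain ⟨w, h1, h2, h3⟩ := up v hv
  exact h2.trans (hm w ⟨h1, h3⟩)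

end Pool.Agent.Lib.MP_70593a_al
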