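import Pool.Agent.Lib.MP_70593a_al.Four

/-! A loopless relation with a near-unanimity operation of arity four, second part. -/

set_option autoImplicit false

namespace Pool.Agent.Lib.MP_70593a_al

section

variable {L : Type} [LinearOrder L]

/-- The smaller of the two points is white and the larger is black. -/
def WB (χ : L → Bool) (c d : L) : Prop :=
  (c < d ∧ χ c = false ∧ χ d = true) ∨ (d < c ∧ χ d = false ∧ χ c = true)

theorem WB.lt {χ : L → Bool} {c d : L} (h : WB χ c d) (hc : χ c = false) : c < d := by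
  rcases h with h | h
  · exact h.1
  · simp [hc] at h

theorem WB.gt {χ : L → Bool} {c d : L} (h : WB χ c d) (hc : χ c = true) : d < c := by
  rcases h with h | h
  · simp [hc] at h
  · exact h.1

theorem WB.ne {χ : L → Bool} {c d : L} (h : WB χ c d) : c ≠ d := by
  rcases h with h | h
  · exact h.1.ne
  · exact h.1.ne'

/-- The carrier. -/
abbrev WP (χ : L → Bool) : Type := {z : L × L // WB χ z.1 z.2}

/-- The swap of the two coordinates. -/
def sw {χ : L → Bool} (z : WP χ) : WP χ := ⟨(z.1.2, z.1.1), z.2.symm⟩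

theorem exists_G [Countable L] (χ : L → Bool)
    (hd : ∀ (t : Bool) (a b : L), a < b → ∃ c, a < c ∧ c < b ∧ χ c = t) {u0 v0 : L}
    (huv : u0 < v0) : ∃ G : (Fin 4 → WP χ) → L, Monotone G ∧
      (∀ x v i, (∀ j, j ≠ i → (x j).1.1 = v) → G x = v) ∧
      ∀ x, WB χ (G x) (G fun i => sw (x i)) := by
  classical
  obtain ⟨s, hs⟩ : ∃ s : (Fin 4 → WP χ) → Fin 4 → WP χ, s = fun x i => sw (x i) := ⟨_, rfl⟩
  have s1 : ∀ x i, (s x i).1.1 = (x i).1.2 := fun x i => by rw [hs]; rfl
  have s2 : ∀ x i, (s x i).1.2 = (x i).1.1 := fun x i => by rw [hs]; rfl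
  have ss : ∀ x, s (s x) = x := fun x => by rw [hs]; rfl
  have h1 : ∀ x : Fin 4 → WP χ, ∃ l, ∀ v,
      v ≤ l ↔ Φ (fun i => v ≤ (x i).1.1) (fun i => v ≤ (x i).1.2) := fun x => exists_thr _ _
  have h2 : ∀ x : Fin 4 → WP χ, ∃ l, ∀ v,
      l ≤ v ↔ Φ (fun i => (x i).1.1 ≤ v) (fun i => (x i).1.2 ≤ v) := fun x =>
    exists_thr (L := Lᵒᵈ) (fun i => (x i).1.1) (fun i => (x i).1.2)
  choose lam hlam using h1
  choose ups hups using h2
  have hlu : ∀ x, lam x ≤ ups x := fun x => not_lt.1 fun h =>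
    ((hlam x _).1 le_rfl).not (((hups x _).1 le_rfl).mono
      (fun i hi => not_le.2 (hi.trans_lt h)) fun i hi => not_le.2 (hi.trans_lt h))
  have ml : Monotone lam := fun x y h => (hlam y _).2 (((hlam x _).1 le_rfl).mono
    (fun i hi => hi.trans (h i).1) fun i hi => hi.trans (h i).2)
  have mu : Monotone ups := fun x y h => (hups x _).2 (((hups y _).1 le_rfl).mono
    (fun i hi => (h i).1.trans hi) fun i hi => (h i).2.trans hi)
  have kw : ∀ x, ¬ lam x < ups x → χ (lam x) = false → lam x ≤ lam (s x) ∧ lam x < ups (s x) := by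
    intro x hx hc
    have := ((hlam x _).1 le_rfl).key ((hups x _).1 (not_lt.1 hx)) (fun i => le_total _ _)
      (fun i => le_total _ _)
      (fun i a b => not_le.2 (a.trans_lt ((x i).2.lt (le_antisymm a b ▸ hc))))
      (fun i a b => not_le.2 (a.trans_lt (WB.lt (x i).2.symm (le_antisymm a b ▸ hc))))
    rw [hlam, ← not_le, hups]
    simpa only [s1, s2] using this
  have kb : ∀ x, ¬ lam x < ups x → χ (lam x) = true → ups (s x) ≤ lam x ∧ lam (s x) < lam x := by
    intro x hx hc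
    have := ((hups x _).1 (not_lt.1 hx)).key ((hlam x _).1 le_rfl) (fun i => le_total _ _)
      (fun i => le_total _ _)
      (fun i a b => not_le.2 (((x i).2.gt (le_antisymm b a ▸ hc)).trans_le a))
      (fun i a b => not_le.2 ((WB.gt (x i).2.symm (le_antisymm b a ▸ hc)).trans_le a))
    rw [hups, ← not_le, hlam]
    simpa only [s1, s2] using this
  have one : ∀ x, ¬ lam x < ups x → ∀ a b, lam (s x) ≤ a → a < b → b ≤ ups (s x) →
      ∃ d, a < d ∧ d < b ∧ WB χ (lam x) d := by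
    intro x hx a b h1 h2 h3
    cases hc : χ (lam x)
    · obtain ⟨d, d1, d2, d3⟩ := hd true a b h2
      exact ⟨d, d1, d2, Or.inl ⟨((kw x hx hc).1.trans h1).trans_lt d1, hc, d3⟩⟩
    · obtain ⟨d, d1, d2, d3⟩ := hd false a b h2
      exact ⟨d, d1, d2, Or.inr ⟨d2.trans_le (h3.trans (kb x hx hc).1), d3, hc⟩⟩
  obtain ⟨g, hg1, hg2⟩ := sel2 (fun x y => x < y ∧ lam x < ups x ∧ lam y < ups y)
    (fun x y z a b => ⟨a.1.trans b.1, a.2.1, b.2.2⟩) (fun x a => lt_irrefl _ a.1) s ss
    (fun x e => (x 0).2.ne (by rw [← s1, e]))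
    (fun x a => (x 0).2.ne (le_antisymm (s1 x 0 ▸ (a.1.le 0).1) (s2 x 0 ▸ (a.1.le 0).2)))
    (fun x => if lam x < ups x then lam x else u0) (fun x => if lam x < ups x then ups x else v0)
    (fun x y a => by simpa only [a.2.1, a.2.2, if_true] using ml a.1.le)
    (fun x y a => by simpa only [a.2.1, a.2.2, if_true] using mu a.1.le)
    (fun x => by split_ifs <;> assumption)
    (fun x c d => WB χ (if lam x < ups x then c else lam x)
      (if lam (s x) < ups (s x) then d else lam (s x)))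
    (fun x c d h => by rw [ss]; exact h.symm) (by
    intro x a b a' b' a1 a2 a3 b1 b2 b3
    obtain ⟨c0, c1, c2, c3⟩ := hd true a b a2
    obtain ⟨d0, d1, d2, d3⟩ := hd false a' b' b2
    by_cases hx : lam x < ups x <;> by_cases hy : lam (s x) < ups (s x) <;>
      simp only [hx, hy, if_true, if_false] at a1 a3 b1 b3 ⊢
    · by_cases hab : a < b'
      · obtain ⟨c, e1, e2, e3⟩ := hd false a (min b b') (lt_min a2 hab)
        obtain ⟨d, f1, f2, f3⟩ := hd true (max c a') b' (max_lt (e2.trans_le (min_le_right _ _)) b2)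
        exact ⟨c, d, e1, e2.trans_le (min_le_left _ _), (le_max_right _ _).trans_lt f1, f2,
          Or.inl ⟨(le_max_left _ _).trans_lt f1, e3, f3⟩⟩
      · exact ⟨c0, d0, c1, c2, d1, d2, Or.inr ⟨(d2.trans_le (not_lt.1 hab)).trans c1, d3, c3⟩⟩
    · obtain ⟨c, e1, e2, e3⟩ := one (s x) hy a b (by rwa [ss]) a2 (by rwa [ss])
      exact ⟨c, d0, e1, e2, d1, d2, e3.symm⟩
    · obtain ⟨d, e1, e2, e3⟩ := one x hx a' b' b1 b2 b3
      exact ⟨c0, d, c1, c2, e1, e2, e3⟩
    · refine ⟨c0, d0, c1, c2, d1, d2, ?_⟩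
      cases hc : χ (lam x) <;> cases hc' : χ (lam (s x))
      · have e1 := (kw x hx hc).2.trans_le (not_lt.1 hy)
        have e2 := (kw _ hy hc').1
        rw [ss] at e2
        exact absurd e1 (not_lt.2 e2)
      · exact Or.inl ⟨(kw x hx hc).2.trans_le (not_lt.1 hy), hc, hc'⟩
      · exact Or.inr ⟨(kb x hx hc).2, hc', hc⟩
      · have e2 := (kb _ hy hc').2
        rw [ss] at e2
        exact absurd (kb x hx hc).2 (not_lt.2 e2.le))
  refine ⟨fun x => if lam x < ups x then g x else lam x, fun x y hxy => ?_, fun x v i h => ?_,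
    fun x => by simpa only [hs] using (hg2 x).2.2⟩
  · have e1 := hg2 x
    have e2 := hg2 y
    by_cases hx : lam x < ups x <;> by_cases hy : lam y < ups y <;>
      simp only [hx, hy, if_true, if_false] at e1 e2 ⊢
    · rcases hxy.lt_or_eq with h | rfl
      · exact (hg1 x y ⟨h, hx, hy⟩).le
      · exact le_rfl
    · exact (e1.2.1.le.trans (mu hxy)).trans (not_lt.1 hy)
    · exact (ml hxy).trans e2.1.le
    · exact ml hxy
  · have e1 : v ≤ lam x := (hlam x v).2 (Or.inl ⟨i, fun j hj => (h j hj).ge⟩)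
    have e2 : ups x ≤ v := (hups x v).2 (Or.inl ⟨i, fun j hj => (h j hj).le⟩)
    simp only [not_lt.2 (e2.trans e1), if_false]
    exact le_antisymm ((hlu x).trans e2) e1

end

/-- The counterexample for every arity at least four. -/
theorem exists_four : ∃ (A : Type) (R : A → A → Prop) (a a' c c' : A),
    R a a' ∧ R a' a ∧ R c c' ∧ R c' c ∧ R a c ∧ R a c' ∧ (∀ a, ¬ R a a) ∧
    ∀ n, 4 ≤ n → ∃ f : (Fin n → A) → A,
      (∀ (x y : A) (i : Fin n), f (Function.update (fun _ => x) i y) = x) ∧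
      ∀ x y : Fin n → A, (∀ i, R (x i) (y i)) → R (f x) (f y) := by
  have : Countable D := D_countable.to_subtype
  obtain ⟨u, w, huw⟩ := D_lt
  obtain ⟨G, hm, hnu, hG⟩ := exists_G col col_dense huw
  obtain ⟨p, -, hp, cp⟩ := col_dense false u w huw
  obtain ⟨q, hpq, hq, cq⟩ := col_dense true p w hp
  obtain ⟨r, hqr, hr, cr⟩ := col_dense false q w hq
  obtain ⟨t, hrt, -, ct⟩ := col_dense true r w hr
  let a : WP col := ⟨(p, q), Or.inl ⟨hpq, cp, cq⟩⟩
  let c : WP col := ⟨(r, t), Or.inl ⟨hrt, cr, ct⟩⟩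
  refine ⟨WP col, fun z t => sw z ≤ t, a, sw a, c, sw c, le_rfl, le_rfl, le_rfl, le_rfl,
    ⟨hqr.le, (hpq.trans (hqr.trans hrt)).le⟩, ⟨(hqr.trans hrt).le, (hpq.trans hqr).le⟩,
    fun z hz => z.2.ne (le_antisymm hz.2 hz.1), fun n hn => ⟨fun x =>
      ⟨(G fun j => x (Fin.castLE hn j), G fun j => sw (x (Fin.castLE hn j))), hG _⟩,
      fun x y i => ?_, fun x y h => ⟨hm fun j => h _, hm fun j => ⟨(h _).2, (h _).1⟩⟩⟩⟩
  obtain ⟨k, hk⟩ : ∃ k : Fin 4, ∀ j, j ≠ k → Fin.castLE hn j ≠ i := by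
    by_cases hi : i.1 < 4
    · exact ⟨⟨i.1, hi⟩, fun j hj e => hj (Fin.ext (congrArg Fin.val e :))⟩
    · exact ⟨0, fun j _ e => hi (e ▸ j.2)⟩
  exact Subtype.ext (Prod.ext
    (hnu _ _ k fun j hj => by rw [Function.update_of_ne (hk j hj)])
    (hnu _ _ k fun j hj => by rw [Function.update_of_ne (hk j hj)]; rfl))

end Pool.Agent.Lib.MP_70593a_al
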