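import Mathlib

/-! The loop lemma for majority operations on arbitrary sets. -/

set_option autoImplicit false

namespace Pool.Agent.Lib.MP_70593a_al

/-- `m` is a majority operation compatible with `R`. -/
structure Maj {A : Type} (R : A → A → Prop) (m : A → A → A → A) : Prop where
  l : ∀ x y, m x x y = x
  c : ∀ x y, m x y x = x
  r : ∀ x y, m y x x = x
  cp : ∀ a a' b b' c c', R a a' → R b b' → R c c' → R (m a b c) (m a' b' c')

/-- Absorbing sets that meet in pairs have a common point. -/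
theorem helly {B ι : Type} (m : B → B → B → B) (D : B → Prop) (G : ι → B → Prop)
    (hD : ∀ a b c, D a → D b → D c → D (m a b c))
    (h1 : ∀ i a b c, G i a → G i b → G i (m a b c))
    (h2 : ∀ i a b c, G i a → G i c → G i (m a b c))
    (h3 : ∀ i a b c, G i b → G i c → G i (m a b c))
    (hp : ∀ i j, ∃ x, D x ∧ G i x ∧ G j x) (s : Finset ι) :
    ∀ i j, ∃ x, D x ∧ G i x ∧ G j x ∧ ∀ k ∈ s, G k x := by
  classical
  induction s using Finset.induction_on with
  | empty =>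
    intro i j
    obtain ⟨x, a, b, c⟩ := hp i j
    exact ⟨x, a, b, c, by simp⟩
  | insert k s _ ih =>
    intro i j
    obtain ⟨x, x0, x1, x2, x3⟩ := ih i j
    obtain ⟨y, y0, y1, y2, y3⟩ := ih i k
    obtain ⟨z, z0, z1, z2, -⟩ := ih j k
    refine ⟨m x y z, hD _ _ _ x0 y0 z0, h1 _ _ _ _ x1 y1, h2 _ _ _ _ x2 z1, fun l hl => ?_⟩
    rcases Finset.mem_insert.1 hl with rfl | hl
    · exact h3 _ _ _ _ y2 z2
    · exact h1 _ _ _ _ (x3 l hl) (y3 l hl)

/-- From common predecessors of pairs in a finite orbit to a point related to its own orbit. -/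
theorem orbit_step {B : Type} {F : B → B → Prop} {m : B → B → B → B} (h : Maj F m)
    (hr : ∀ x, F x x) (σ : B → B) (hσ : ∀ a b c, σ (m a b c) = m (σ a) (σ b) (σ c)) {u : B}
    {L : ℕ} (hL : 0 < L) (hu : σ^[L] u = u) (hp : ∀ i j, ∃ a, F a (σ^[i] u) ∧ F a (σ^[j] u)) :
    ∃ w, ∀ s, F w (σ^[s] w) := by
  have hs : ∀ s a b c, σ^[s] (m a b c) = m (σ^[s] a) (σ^[s] b) (σ^[s] c) := by
    intro s
    induction s with
    | zero => intro a b c; rfl
    | succ s ih => intro a b c; simp only [Function.iterate_succ_apply, hσ, ih]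
  have hD : ∀ a b c, (∀ z, (∀ i, F z (σ^[i] u)) → ∀ s, F z (σ^[s] a)) →
      (∀ z, (∀ i, F z (σ^[i] u)) → ∀ s, F z (σ^[s] b)) →
      ∀ z, (∀ i, F z (σ^[i] u)) → ∀ s, F z (σ^[s] (m a b c)) := by
    intro a b c ha hb z hz s
    have := h.cp _ _ _ _ _ _ (ha z hz s) (hb z hz s) (hr (σ^[s] c))
    rwa [h.l, ← hs] at this
  obtain ⟨w, hw, -, -, hw'⟩ := helly m
    (fun a => ∀ z, (∀ i, F z (σ^[i] u)) → ∀ s, F z (σ^[s] a)) (fun i a => F a (σ^[i] u))
    (fun a b c ha hb _ => hD a b c ha hb)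
    (fun i a b c ha hb => by simpa only [h.l] using h.cp _ _ _ _ _ _ ha hb (hr c))
    (fun i a b c ha hc => by simpa only [h.c] using h.cp _ _ _ _ _ _ ha (hr b) hc)
    (fun i a b c hb hc => by simpa only [h.r] using h.cp _ _ _ _ _ _ (hr a) hb hc)
    (fun i j => by
      obtain ⟨a, h1, h2⟩ := hp i j
      have h0 : ∀ i z, (∀ i, F z (σ^[i] u)) → ∀ s, F z (σ^[s] (σ^[i] u)) := fun i z hz s => by
        rw [← Function.iterate_add_apply]
        exact hz _
      refine ⟨m (σ^[i] u) (σ^[j] u) a, hD _ _ _ (h0 i) (h0 j), ?_, ?_⟩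
      · simpa only [h.c] using h.cp _ _ _ _ _ _ (hr (σ^[i] u)) (hr (σ^[j] u)) h1
      · simpa only [h.r] using h.cp _ _ _ _ _ _ (hr (σ^[i] u)) (hr (σ^[j] u)) h2)
    (Finset.range L) 0 0
  refine ⟨w, hw w fun i => ?_⟩
  rw [← Function.IsPeriodicPt.iterate_mod_apply (f := σ) (n := L) hu i]
  exact hw' _ (Finset.mem_range.2 (Nat.mod_lt _ hL))

variable {A : Type} {R : A → A → Prop} {m : A → A → A → A}

/-- There is a walk of length `k` from `a` to `b`. -/
def Pth (R : A → A → Prop) (k : ℕ) (a b : A) : Prop :=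
  ∃ v : ℕ → A, v 0 = a ∧ v k = b ∧ ∀ t < k, R (v t) (v (t + 1))

theorem Pth.cat {j k : ℕ} {a b c : A} (h1 : Pth R j a c) (h2 : Pth R k c b) :
    ∃ v : ℕ → A, v 0 = a ∧ v j = c ∧ v (j + k) = b ∧ ∀ t < j + k, R (v t) (v (t + 1)) := by
  obtain ⟨v, v0, v1, v2⟩ := h1
  obtain ⟨w, w0, w1, w2⟩ := h2
  refine ⟨fun t => if t < j then v t else w (t - j), ?_, by simp [w0], by simp [w1], fun t ht => ?_⟩
  · by_cases hj : 0 < j
    · simp [hj, v0]
    · obtain rfl : j = 0 := by omega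
      simp [w0, ← v1, v0]
  · by_cases ha : t + 1 < j
    · simpa [ha, show t < j by omega] using v2 t (by omega)
    by_cases hb : t < j
    · have e : t + 1 = j := by omega
      have := v2 t hb
      rw [e, v1, ← w0] at this
      simpa [hb, e] using this
    · have := w2 (t - j) (by omega)
      rw [show t - j + 1 = t + 1 - j by omega] at this
      simpa [ha, hb] using this

theorem Pth.trans {j k l : ℕ} {a b c : A} (h1 : Pth R j a c) (h2 : Pth R k c b) (e : l = j + k) :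
    Pth R l a b := by
  obtain ⟨v, v0, -, v1, v2⟩ := h1.cat h2
  exact e ▸ ⟨v, v0, v1, v2⟩

theorem Pth.split {j k : ℕ} {a b : A} (h : Pth R (j + k) a b) : ∃ c, Pth R j a c ∧ Pth R k c b := by
  obtain ⟨v, v0, v1, v2⟩ := h
  exact ⟨v j, ⟨v, v0, rfl, fun t ht => v2 t (by omega)⟩,
    ⟨fun t => v (j + t), rfl, v1, fun t ht => v2 (j + t) (by omega)⟩⟩

theorem Pth.one {a b : A} (h : R a b) : Pth R 1 a b :=
  ⟨fun t => if t = 0 then a else b, rfl, rfl, fun t ht => by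
    obtain rfl : t = 0 := by omega
    exact h⟩

theorem Maj.pth (h : Maj R m) {k : ℕ} {a a' b b' c c' : A} (h1 : Pth R k a a') (h2 : Pth R k b b')
    (h3 : Pth R k c c') : Pth R k (m a b c) (m a' b' c') := by
  obtain ⟨u, rfl, rfl, u2⟩ := h1
  obtain ⟨v, rfl, rfl, v2⟩ := h2
  obtain ⟨w, rfl, rfl, w2⟩ := h3
  exact ⟨fun t => m (u t) (v t) (w t), rfl, rfl,
    fun t ht => h.cp _ _ _ _ _ _ (u2 t ht) (v2 t ht) (w2 t ht)⟩

/-- Infinite walks of period `N`. -/
def PW (R : A → A → Prop) (N : ℕ) : Type :=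
  {u : ℕ → A // (∀ t, R (u t) (u (t + 1))) ∧ ∀ t, u (t + N) = u t}

variable {N : ℕ}

theorem PW.per (u : PW R N) (t j : ℕ) : u.1 (t + j * N) = u.1 t := by
  induction j with
  | zero => simp
  | succ j ih => rw [add_one_mul, ← add_assoc, u.2.2, ih]

theorem PW.pth (u : PW R N) (k s t j : ℕ) (e : s + k = t + j * N) : Pth R k (u.1 s) (u.1 t) :=
  ⟨fun i => u.1 (s + i), rfl, by simp only [e, u.per], fun i _ => u.2.1 _⟩

/-- The shift. -/
def sh (u : PW R N) : PW R N :=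
  ⟨fun t => u.1 (t + 1), fun t => u.2.1 _, fun t => by
    show u.1 (t + N + 1) = u.1 (t + 1)
    rw [add_right_comm, u.2.2]⟩

theorem sh_iter (s : ℕ) (u : PW R N) (t : ℕ) : (sh^[s] u).1 t = u.1 (t + s) := by
  induction s generalizing u with
  | zero => rfl
  | succ s ih => rw [Function.iterate_succ_apply, ih]; rfl

theorem sh_per (u : PW R N) : sh^[N] u = u :=
  Subtype.ext (funext fun t => by rw [sh_iter, u.2.2])

/-- The majority operation on periodic walks. -/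
def Maj.pm (h : Maj R m) (a b c : PW R N) : PW R N :=
  ⟨fun t => m (a.1 t) (b.1 t) (c.1 t), fun t => h.cp _ _ _ _ _ _ (a.2.1 t) (b.2.1 t) (c.2.1 t),
    fun t => by simp only [a.2.2, b.2.2, c.2.2]⟩

theorem Maj.pmaj (h : Maj R m) {F : PW R N → PW R N → Prop}
    (hF : ∀ a a' b b' c c', F a a' → F b b' → F c c' → F (h.pm a b c) (h.pm a' b' c')) :
    Maj F h.pm :=
  ⟨fun _ _ => Subtype.ext (funext fun _ => h.l _ _),
    fun _ _ => Subtype.ext (funext fun _ => h.c _ _),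
    fun _ _ => Subtype.ext (funext fun _ => h.r _ _), hF⟩

theorem exists_closed {d e : ℕ} {x y : A} (hL : 0 < d + e) (h1 : Pth R d x y) (h2 : Pth R e y x) :
    ∃ u : PW R (d + e), u.1 0 = x ∧ u.1 d = y := by
  obtain ⟨v, v0, v1, v2, v3⟩ := h1.cat h2
  have key : ∀ t ≤ d + e, v (t % (d + e)) = v t := by
    intro t ht
    rcases ht.lt_or_eq with ht | rfl
    · rw [Nat.mod_eq_of_lt ht]
    · rw [Nat.mod_self, v0, v2]
  refine ⟨⟨fun t => v (t % (d + e)), fun t => ?_, fun t => by simp⟩, by simp [v0], ?_⟩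
  · have h3 := Nat.mod_lt t hL
    have h4 := v3 _ h3
    rw [← key (t % (d + e) + 1) h3, Nat.mod_add_mod] at h4
    exact h4
  · exact (key d (by omega)).trans v1

/-- Lowering the length of the walks from a point to its closed walk. -/
theorem Maj.lower (h : Maj R m) {K : ℕ} (hN : 0 < N) (w : PW R N)
    (hw : ∀ s, Pth R (K + 1) (w.1 0) (w.1 s)) :
    ∃ (L : ℕ) (w : PW R L), 0 < L ∧ ∀ s, Pth R K (w.1 0) (w.1 s) := by
  obtain ⟨n, rfl⟩ : ∃ n, N = n + 1 := ⟨N - 1, by omega⟩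
  have f1 : ∀ i s, Pth R (K + 1 + i) (w.1 0) (w.1 s) := fun i s =>
    (hw (s + n * i)).trans (w.pth i _ s i (by ring)) rfl
  obtain ⟨l, hl⟩ : ∃ l, (4 * K + 2) * (n + 1) = l + 1 := ⟨(4 * K + 2) * n + 4 * K + 1, by ring⟩
  have g1 : ∀ d, 2 * d ≤ l + 1 →
      ∃ u : PW R (l + 1), Pth R K (w.1 0) (u.1 0) ∧ Pth R K (w.1 0) (u.1 d) := by
    intro d hd
    have hK : Pth R K (w.1 0) (w.1 K) := w.pth K 0 K 0 (by simp)
    rcases Nat.eq_zero_or_pos d with rfl | hd0
    · refine ⟨⟨fun t => w.1 (K + t), fun t => w.2.1 _, fun t => ?_⟩, hK, hK⟩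
      show w.1 (K + (t + (l + 1))) = w.1 (K + t)
      rw [← add_assoc, ← hl, w.per]
    obtain ⟨d, rfl⟩ : ∃ d', d = d' + 1 := ⟨d - 1, by omega⟩
    obtain ⟨x, x1, x2⟩ := Pth.split (j := K) (k := d + 1)
      ((show K + 1 + d = K + (d + 1) by ring) ▸ f1 d K)
    obtain ⟨i, hi⟩ : ∃ i, l + 1 = d + 1 + (n * K + (K + 1 + i) + K) :=
      ⟨l + 1 - (d + 1 + n * K + K + 1 + K), by
        have : d + 1 + n * K + K + 1 + K ≤ l + 1 := by nlinarith [Nat.zero_le (n * K)]
        omega⟩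
    obtain ⟨u, u1, u2⟩ := exists_closed (by omega) x2
      (((w.pth (n * K) K 0 K (by ring)).trans (f1 i 0) rfl).trans x1 rfl)
    rw [hi]
    exact ⟨u, u1 ▸ x1, u2 ▸ hK⟩
  have g2 : ∀ d, d ≤ l + 1 →
      ∃ u : PW R (l + 1), Pth R K (w.1 0) (u.1 0) ∧ Pth R K (w.1 0) (u.1 d) := by
    intro d hd
    by_cases h2 : 2 * d ≤ l + 1
    · exact g1 d h2
    obtain ⟨u, u1, u2⟩ := g1 (l + 1 - d) (by omega)
    refine ⟨sh^[l + 1 - d] u, by rwa [sh_iter, zero_add], ?_⟩
    rwa [sh_iter, show d + (l + 1 - d) = 0 + (l + 1) by omega, u.2.2]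
  have g3 : ∀ i j : Fin (l + 1), i ≤ j →
      ∃ u : PW R (l + 1), Pth R K (w.1 0) (u.1 i) ∧ Pth R K (w.1 0) (u.1 j) := by
    intro i j hij
    have hij' : i.1 ≤ j.1 := hij
    obtain ⟨u, u1, u2⟩ := g2 (j - i) (by omega)
    refine ⟨sh^[l + 1 - i] u, ?_, ?_⟩
    · rwa [sh_iter, show i + (l + 1 - i) = 0 + (l + 1) by omega, u.2.2]
    · rwa [sh_iter, show j + (l + 1 - i) = j - i + (l + 1) by omega, u.2.2]
  have g4 : ∀ (c : PW R (l + 1)) (t : ℕ), Pth R K (c.1 (t + l * K)) (c.1 t) := fun c t =>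
    c.pth K _ t K (by ring)
  obtain ⟨u, -, -, -, hu⟩ := helly h.pm (fun _ => True)
    (fun (i : Fin (l + 1)) (u : PW R (l + 1)) => Pth R K (w.1 0) (u.1 i)) (fun _ _ _ _ _ _ => trivial)
    (fun i a b c ha hb => by
      have := h.pth ha hb (g4 c i)
      rw [h.l] at this
      exact this)
    (fun i a b c ha hc => by
      have := h.pth ha (g4 b i) hc
      rw [h.c] at this
      exact this)
    (fun i a b c hb hc => by
      have := h.pth (g4 a i) hb hc
      rw [h.r] at this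
      exact this)
    (fun i j => by
      rcases le_total i j with e | e
      · obtain ⟨u, u1, u2⟩ := g3 i j e
        exact ⟨u, trivial, u1, u2⟩
      · obtain ⟨u, u1, u2⟩ := g3 j i e
        exact ⟨u, trivial, u2, u1⟩) Finset.univ 0 0
  have hu' : ∀ s, Pth R K (w.1 0) (u.1 s) := fun s => by
    have := hu ⟨s % (l + 1), Nat.mod_lt _ l.succ_pos⟩ (Finset.mem_univ _)
    rwa [← u.per _ (s / (l + 1)), Nat.mod_add_div'] at this
  obtain ⟨z, hz⟩ := orbit_step (F := fun a b : PW R (l + 1) => Pth R K (a.1 0) (b.1 K))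
    (h.pmaj fun _ _ _ _ _ _ => h.pth) (fun a => a.pth K 0 K 0 (by simp)) sh (fun _ _ _ => rfl)
    l.succ_pos (sh_per u) fun i j => ⟨⟨w.1, w.2.1, fun t => by rw [← hl, w.per]⟩,
      by rw [sh_iter]; exact hu' _, by rw [sh_iter]; exact hu' _⟩
  refine ⟨l + 1, z, l.succ_pos, fun s => ?_⟩
  have := hz (s + l * K)
  rwa [sh_iter, show K + (s + l * K) = s + K * (l + 1) by ring, z.per] at this

theorem Maj.loop_of_pth (h : Maj R m) (K : ℕ) : ∀ (N : ℕ) (w : PW R N), 0 < N →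
    (∀ s, Pth R K (w.1 0) (w.1 s)) → ∃ a, R a a := by
  induction K with
  | zero =>
    intro N w _ hw
    obtain ⟨v, v0, v1, -⟩ := hw 1
    exact ⟨w.1 0, by simpa only [← v0, ← v1, zero_add] using w.2.1 0⟩
  | succ K ih =>
    intro N w hN hw
    obtain ⟨L, z, hL, hz⟩ := h.lower hN w hw
    exact ih L z hL hz

end Pool.Agent.Lib.MP_70593a_al
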