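import Pool.Agent.Lib.MP_70593a_al.Maj

/-! The loop lemma for majority operations on arbitrary sets, second part. -/

set_option autoImplicit false

namespace Pool.Agent.Lib.MP_70593a_al

theorem idem_pow {B : Type} [Finite B] (f : B → B) :
    ∃ N, 0 < N ∧ ∀ x, f^[N] (f^[N] x) = f^[N] x := by
  obtain ⟨a, b, hab, e⟩ : ∃ a b : ℕ, a < b ∧ f^[a] = f^[b] := by
    obtain ⟨a, b, hab, e⟩ := Finite.exists_ne_map_eq_of_infinite (fun n : ℕ => f^[n])
    rcases lt_or_gt_of_ne hab with h | h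
    · exact ⟨a, b, h, e⟩
    · exact ⟨b, a, h, e.symm⟩
  obtain ⟨d, rfl⟩ := Nat.exists_eq_add_of_lt hab
  have key : ∀ j, f^[a + j * (d + 1)] = f^[a] := by
    intro j
    induction j with
    | zero => simp
    | succ j ih =>
      rw [show a + (j + 1) * (d + 1) = d + 1 + (a + j * (d + 1)) by ring, Function.iterate_add, ih,
        ← Function.iterate_add, e]
      congr 1
      ring
  refine ⟨(a + 1) * (d + 1), by positivity, fun x => ?_⟩
  rw [← Function.iterate_add_apply,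
    show (a + 1) * (d + 1) + (a + 1) * (d + 1) = (a * d + d + 1) + (a + (a + 1) * (d + 1)) by ring,
    Function.iterate_add_apply, key, ← Function.iterate_add_apply]
  congr 1
  ring

theorem unif {P : ℕ → ℕ → Prop} (hm : ∀ s j, P s j → P s (j + 1)) (h : ∀ s, ∃ j, P s j) (N : ℕ) :
    ∃ J, ∀ s < N, P s J := by
  have hm' : ∀ s j i, P s j → P s (j + i) := by
    intro s j i hj
    induction i with
    | zero => exact hj
    | succ i ih => exact hm _ _ ih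
  induction N with
  | zero => exact ⟨0, by simp⟩
  | succ N ih =>
    obtain ⟨J, hJ⟩ := ih
    obtain ⟨j, hj⟩ := h N
    refine ⟨J + j, fun s hs => ?_⟩
    rcases Nat.lt_succ_iff_lt_or_eq.1 hs with hs | rfl
    · exact hm' _ _ _ (hJ s hs)
    · rw [add_comm]
      exact hm' _ _ _ hj

variable {A : Type} {R : A → A → Prop} {m : A → A → A → A}

/-- Each vertex of a finite smooth set of edges lies between two periodic walks. -/
theorem exists_updown (S : Finset (A × A)) (hS : ∀ p ∈ S, R p.1 p.2)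
    (hs : ∀ p ∈ S, (∃ q ∈ S, q.2 = p.1) ∧ (∃ q ∈ S, q.1 = p.2)) :
    ∃ n, ∀ p ∈ S, ∃ u d : PW R (n + 1), Pth R (n + 1) p.1 (u.1 0) ∧ Pth R (n + 1) (d.1 0) p.1 := by
  have h1 : ∀ p : S, ∃ q : S, q.1.1 = p.1.2 := fun p => by
    obtain ⟨q, hq, e⟩ := (hs p.1 p.2).2
    exact ⟨⟨q, hq⟩, e⟩
  have h2 : ∀ p : S, ∃ q : S, q.1.2 = p.1.1 := fun p => by
    obtain ⟨q, hq, e⟩ := (hs p.1 p.2).1
    exact ⟨⟨q, hq⟩, e⟩
  choose nx hnx using h1
  choose pv hpv using h2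
  obtain ⟨N, hN, hi⟩ := idem_pow (Prod.map nx pv)
  obtain ⟨n, rfl⟩ : ∃ n, N = n + 1 := ⟨N - 1, by omega⟩
  simp only [Prod.map_iterate] at hi
  have e1 : ∀ p : S, R p.1.1 (nx p).1.1 := fun p => hnx p ▸ hS p.1 p.2
  have e2 : ∀ p : S, R (pv p).1.1 p.1.1 := fun p => hpv p ▸ hS _ (pv p).2
  refine ⟨n, fun p hp => ?_⟩
  have i1 : nx^[n + 1] (nx^[n + 1] ⟨p, hp⟩) = nx^[n + 1] ⟨p, hp⟩ :=
    congrArg Prod.fst (hi (⟨p, hp⟩, ⟨p, hp⟩))
  have i2 : pv^[n + 1] (pv^[n + 1] ⟨p, hp⟩) = pv^[n + 1] ⟨p, hp⟩ :=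
    congrArg Prod.snd (hi (⟨p, hp⟩, ⟨p, hp⟩))
  refine ⟨⟨fun t => (nx^[t] (nx^[n + 1] ⟨p, hp⟩)).1.1, fun t => ?_, fun t => ?_⟩,
    ⟨fun t => (pv^[t * n] (pv^[n + 1] ⟨p, hp⟩)).1.1, fun t => ?_, fun t => ?_⟩,
    ⟨fun t => (nx^[t] ⟨p, hp⟩).1.1, rfl, rfl, fun t _ => ?_⟩,
    ⟨fun t => (pv^[n + 1 - t] ⟨p, hp⟩).1.1, by simp, by simp, fun t ht => ?_⟩⟩
  · simp only [Function.iterate_succ_apply' nx t]
    exact e1 _
  · simp only [Function.iterate_add_apply nx t, i1]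
  · have := e2 (pv^[(t + 1) * n] (pv^[n + 1] ⟨p, hp⟩))
    rwa [← Function.iterate_succ_apply' pv, show ((t + 1) * n).succ = t * n + (n + 1) by
      rw [Nat.succ_eq_add_one]; ring, Function.iterate_add_apply, i2] at this
  · have := Function.IsPeriodicPt.mul_const (f := pv) (m := n + 1) i2 n
    simp only [add_mul t, Function.iterate_add_apply pv (t * n), this.eq]
  · simp only [Function.iterate_succ_apply' nx t]
    exact e1 _
  · have := e2 (pv^[n + 1 - (t + 1)] ⟨p, hp⟩)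
    rwa [← Function.iterate_succ_apply' pv, show (n + 1 - (t + 1)).succ = n + 1 - t by omega] at this

variable {n : ℕ}

/-- The zigzag relations on periodic walks. -/
def Z (R : A → A → Prop) (n : ℕ) : ℕ → PW R (n + 1) → PW R (n + 1) → Prop
  | 0 => fun u v => ∃ j, Pth R (j * (n + 1)) (u.1 0) (v.1 0)
  | r + 1 => fun u v => ∃ a, Z R n r a u ∧ Z R n r a v

theorem Z.refl (r : ℕ) (u : PW R (n + 1)) : Z R n r u u := by
  induction r with
  | zero => exact ⟨0, u.pth _ 0 0 0 rfl⟩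
  | succ r ih => exact ⟨u, ih, ih⟩

theorem Z.shift {r : ℕ} {u v : PW R (n + 1)} (h : Z R n r u v) : Z R n r (sh u) (sh v) := by
  induction r generalizing u v with
  | zero =>
    obtain ⟨j, hj⟩ := h
    exact ⟨j + 1, ((u.pth n 1 0 1 (by ring)).trans hj rfl).trans (v.pth 1 0 1 0 (by ring))
      (by ring)⟩
  | succ r ih =>
    obtain ⟨a, h1, h2⟩ := h
    exact ⟨sh a, ih h1, ih h2⟩

theorem Z.iter {r : ℕ} {u v : PW R (n + 1)} (h : Z R n r u v) (s : ℕ) :
    Z R n r (sh^[s] u) (sh^[s] v) := by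
  induction s with
  | zero => exact h
  | succ s ih => simpa only [Function.iterate_succ_apply'] using ih.shift

theorem Z.mono {r : ℕ} {u v : PW R (n + 1)} (h : Z R n r u v) (i : ℕ) : Z R n (r + i) u v := by
  induction i with
  | zero => exact h
  | succ i ih => exact ⟨u, Z.refl _ u, ih⟩

theorem Maj.zmaj (h : Maj R m) (r : ℕ) : Maj (Z R n r) h.pm := by
  refine h.pmaj ?_
  induction r with
  | zero =>
    have pad : ∀ (u v : PW R (n + 1)) (j i l : ℕ), Pth R (j * (n + 1)) (u.1 0) (v.1 0) →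
        l = j + i → Pth R (l * (n + 1)) (u.1 0) (v.1 0) := fun u v j i l hj e =>
      hj.trans (v.pth (i * (n + 1)) 0 0 i rfl) (by rw [e]; ring)
    rintro a a' b b' c c' ⟨i, hi⟩ ⟨j, hj⟩ ⟨k, hk⟩
    exact ⟨i + j + k, h.pth (pad _ _ _ (j + k) _ hi (by ring)) (pad _ _ _ (i + k) _ hj (by ring))
      (pad _ _ _ (i + j) _ hk (by ring))⟩
  | succ r ih =>
    rintro a a' b b' c c' ⟨x, x1, x2⟩ ⟨y, y1, y2⟩ ⟨z, z1, z2⟩
    exact ⟨h.pm x y z, ih _ _ _ _ _ _ x1 y1 z1, ih _ _ _ _ _ _ x2 y2 z2⟩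

theorem sh_mod (w : PW R (n + 1)) (s : ℕ) : sh^[s % (n + 1)] w = sh^[s] w :=
  Function.IsPeriodicPt.iterate_mod_apply (f := sh) (n := n + 1) (sh_per w) s

theorem Maj.loop_of_Z (h : Maj R m) (r : ℕ) :
    ∀ w : PW R (n + 1), (∀ s, Z R n r w (sh^[s] w)) → ∃ a, R a a := by
  induction r with
  | zero =>
    intro w hw
    obtain ⟨J, hJ⟩ := unif (P := fun s j => Pth R (j * (n + 1)) (w.1 0) ((sh^[s] w).1 0))
      (fun s j hj => hj.trans ((sh^[s] w).pth (n + 1) 0 0 1 (by ring)) (by ring)) hw (n + 1)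
    refine h.loop_of_pth (J * (n + 1)) (n + 1) w n.succ_pos fun s => ?_
    have := hJ _ (Nat.mod_lt s n.succ_pos)
    rwa [sh_mod, sh_iter, zero_add] at this
  | succ r ih =>
    intro w hw
    obtain ⟨z, hz⟩ := orbit_step (h.zmaj (n := n) r) (Z.refl r) sh (fun _ _ _ => rfl) n.succ_pos
      (sh_per w) fun i j => by
        have := (hw (j + n * i)).iter i
        rw [← Function.iterate_add_apply, ← sh_mod w (i + _),
          show i + (j + n * i) = j + (n + 1) * i by ring, Nat.add_mul_mod_self_left, sh_mod] at this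
        exact this
    exact ih z hz

/-- The equivalence generated by the zigzag relations. -/
def Zs (u v : PW R (n + 1)) : Prop := ∃ r, Z R n r u v

theorem Zs.symm {u v : PW R (n + 1)} (h : Zs u v) : Zs v u :=
  h.elim fun r hr => ⟨r + 1, u, hr, Z.refl r u⟩

theorem Zs.trans {u v w : PW R (n + 1)} (h1 : Zs u v) (h2 : Zs v w) : Zs u w := by
  obtain ⟨r, hr⟩ := h1.symm
  obtain ⟨s, hs⟩ := h2
  exact ⟨r + s + 1, v, hr.mono s, add_comm s r ▸ hs.mono r⟩

theorem Zs.iter {u v : PW R (n + 1)} (h : Zs u v) (s : ℕ) : Zs (sh^[s] u) (sh^[s] v) :=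
  h.elim fun r hr => ⟨r, hr.iter s⟩

theorem Maj.loop_of_Zs (h : Maj R m) (u : PW R (n + 1)) (hu : Zs (sh u) u) : ∃ a, R a a := by
  have h1 : ∀ s, Zs u (sh^[s] u) := by
    intro s
    induction s with
    | zero => exact ⟨0, Z.refl 0 u⟩
    | succ s ih => exact ih.trans (hu.iter s).symm
  obtain ⟨r, hr⟩ := unif (P := fun s r => Z R n r u (sh^[s] u)) (fun s j hj => hj.mono 1) h1 (n + 1)
  exact h.loop_of_Z r u fun s => sh_mod u s ▸ hr _ (Nat.mod_lt s n.succ_pos)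

theorem Zs.edge {a b : A} (hab : R a b) {u d v : PW R (n + 1)} (hu : Pth R (n + 1) a (u.1 0))
    (hd : Pth R (n + 1) (d.1 0) a) (hv : Pth R (n + 1) b (v.1 0)) : Zs (sh u) v := by
  have h1 : Zs u (sh^[n] v) := ⟨1, d, ⟨2, hd.trans hu (by ring)⟩, 3, by
    rw [sh_iter]
    exact ((hd.trans (Pth.one hab) rfl).trans hv rfl).trans (v.pth n 0 _ 0 (by ring)) (by ring)⟩
  have h2 := h1.iter 1
  rwa [← Function.iterate_add_apply, add_comm 1 n, sh_per] at h2

/-- The loop lemma for a majority operation and a finite smooth subgraph of algebraic length 1. -/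
theorem Maj.loop (h : Maj R m) (S : Finset (A × A)) (hS : ∀ p ∈ S, R p.1 p.2)
    (hs : ∀ p ∈ S, (∃ q ∈ S, q.2 = p.1) ∧ (∃ q ∈ S, q.1 = p.2)) (k : ℕ) (v : ℕ → A) (e : ℕ → ℤ)
    (hv : v k = v 0)
    (he : ∀ i < k, (e i = 1 ∧ (v i, v (i + 1)) ∈ S) ∨ (e i = -1 ∧ (v (i + 1), v i) ∈ S))
    (hk : ∑ i ∈ Finset.range k, e i = 1) : ∃ a, R a a := by
  obtain ⟨n, hn⟩ := exists_updown S hS hs
  have hk0 : 0 < k := Nat.pos_of_ne_zero (by rintro rfl; simp at hk)
  obtain ⟨u0, -⟩ : ∃ u : PW R (n + 1), True := by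
    rcases he 0 hk0 with ⟨-, h0⟩ | ⟨-, h0⟩ <;> exact (hn _ h0).elim fun u _ => ⟨u, trivial⟩
  have h1 : ∀ a, ∃ u d : PW R (n + 1), (∃ p ∈ S, p.1 = a) →
      Pth R (n + 1) a (u.1 0) ∧ Pth R (n + 1) (d.1 0) a := by
    intro a
    by_cases ha : ∃ p ∈ S, p.1 = a
    · obtain ⟨p, hp, rfl⟩ := ha
      obtain ⟨u, d, hud⟩ := hn p hp
      exact ⟨u, d, fun _ => hud⟩
    · exact ⟨u0, u0, fun h' => absurd h' ha⟩
  choose U D hU using h1
  have h2 : ∀ a b, (a, b) ∈ S → Zs (sh (U a)) (U b) := fun a b hab =>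
    Zs.edge (hS _ hab) (hU a ⟨_, hab, rfl⟩).1 (hU a ⟨_, hab, rfl⟩).2 (hU b (hs _ hab).2).1
  have h3 : ∀ i ≤ k, ∃ a b : ℕ, (a : ℤ) - b = ∑ j ∈ Finset.range i, e j ∧
      Zs (sh^[a] (U (v 0))) (sh^[b] (U (v i))) := by
    intro i
    induction i with
    | zero => exact fun _ => ⟨0, 0, by simp, 0, Z.refl 0 _⟩
    | succ i ih =>
      intro hi
      obtain ⟨a, b, hab, hz⟩ := ih (by omega)
      rw [Finset.sum_range_succ, ← hab]
      rcases he i hi with ⟨e1, e2⟩ | ⟨e1, e2⟩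
      · refine ⟨1 + a, b, by rw [e1]; push_cast; ring, ?_⟩
        have := hz.iter 1
        rw [← Function.iterate_add_apply, ← Function.iterate_add_apply, add_comm 1 b] at this
        exact this.trans ((h2 _ _ e2).iter b)
      · exact ⟨a, b + 1, by rw [e1]; push_cast; ring, hz.trans ((h2 _ _ e2).iter b).symm⟩
  obtain ⟨a, b, hab, hz⟩ := h3 k le_rfl
  obtain rfl : a = 1 + b := by omega
  rw [hv, Function.iterate_add_apply] at hz
  exact h.loop_of_Zs _ hz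

end Pool.Agent.Lib.MP_70593a_al
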